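import Mathlib
import Pool.Agent.Y131.Pack
import Pool.Agent.Y131.FI

/-!
# Tate classes on all powers of abelian varieties with a place of potentially good reduction whose
# inertia group has isolated eigenvalue ratios

Let `A` be an abelian variety over a number field `k`; `V = V_ℓ(A)` is the rational Tate module with the
action `ρ` of the Galois group `Γ`, `χ` the cyclotomic character and `ω` the Weil pairing of a
polarization; `K` is the algebraic closure of `ℚ_ℓ` and `X = K ⊗ V`. The representation is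
semisimple (Faltings). `X` is the sum of strongly irreducible subspaces `E i`, i.e. minimal nonzero
subspaces stable under a subgroup of finite index.

Hypothesis: each `E i` is a line that is not self-dual (a factor of CM type), or some Frobenius element
has two eigenvalues on `E i` whose quotient is not a root of unity, and there is an element `γ` of finite
order on `X` (of the inertia group of a place where `A` has potentially good reduction)
whose eigenvalues on `E i` are divided into two nonempty sets `S`, `T` such that the quotients `β / α`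
with `α ∈ S`, `β ∈ T` occur only once among the quotients of two eigenvalues on `E i` (or twice if `E i`
is symplectic, since `γ` preserves the pairing), `α` or `β` is a simple eigenvalue, and there is no
geometric progression of length three with such a quotient (with an exception in the symplectic case).

Examples. 1. `γ` acts on each `E i` as a scalar times a complex reflection of order different from two.
2. `A` is the Jacobian of `y ^ p = f(x)`, `p` an odd prime number, `End(A) ⊗ ℚ = ℚ(ζ_p)` and at some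
place `v`, prime to `p` and `m`, the polynomial `f` is the product of an Eisenstein polynomial of degree
`m` (in `x - a`), where `2 ≤ m < deg f - 1` and `p` does not divide `m`, and of a polynomial which is
separable modulo `v`, with no root at `a`: the spaces `E i` are the eigenspaces of the automorphism of
order `p`, and the eigenvalues of `γ` on them are `1` and the simple eigenvalues `ζ_p ^ i ζ_m ^ b`,
`0 < b < m`. Here there are no Weil families, because the generalized Bernoulli numbers `B_{1,ψ}` of the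
odd characters modulo `p` do not vanish: the Tate conjecture holds for all powers of `A`.
-/

namespace Pool.Agent.Results.MP_90d181_ag.FiniteInertia

open Module TensorProduct Pool.Agent.Y131

section

variable {K X Γ : Type} [Field K] [AddCommGroup X] [Module K X] [Group Γ]

/-- `α` is an eigenvalue of `γ` on `U`. -/
def IsEigenvalueOn (R : Representation K Γ X) (γ : Γ) (U : Submodule K X) (α : K) : Prop :=
  ∃ u ∈ U, u ≠ 0 ∧ R γ u = α • u

/-- `α` is an eigenvalue of `γ` on `U` of multiplicity one. -/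
def IsSimpleOn (R : Representation K Γ X) (γ : Γ) (U : Submodule K X) (α : K) : Prop :=
  finrank K (U ⊓ Module.End.eigenspace (R γ) α : Submodule K X) = 1

/-- The form `ω` does not vanish on `U`. -/
def NotIsotropic (ω : X →ₗ[K] X →ₗ[K] K) (U : Submodule K X) : Prop :=
  ∃ u ∈ U, ∃ v ∈ U, ω u v ≠ 0

/-- The eigenvalues of `γ` on `E i` are divided into two nonempty sets (those in `S` and the others)
such that, for `α` in `S` and `β` not in `S`, one of the two is simple, no other pair of eigenvalues on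
`E i` has the quotient `β / α`, and there are no eigenvalues `a`, `b`, `c` on one `E j` with
`b / a = c / b = β / α`. -/
def HasIsolatedRatios (R : Representation K Γ X) {I : Type} (E : I → Submodule K X) (γ : Γ)
    (i : I) : Prop :=
  ∃ S : Set K, (∃ α ∈ S, IsEigenvalueOn R γ (E i) α) ∧ (∃ β ∉ S, IsEigenvalueOn R γ (E i) β) ∧
    ∀ α ∈ S, ∀ β ∉ S, IsEigenvalueOn R γ (E i) α → IsEigenvalueOn R γ (E i) β →
      (IsSimpleOn R γ (E i) α ∨ IsSimpleOn R γ (E i) β) ∧
      (∀ α' β', IsEigenvalueOn R γ (E i) α' → IsEigenvalueOn R γ (E i) β' →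
        β' / α' = β / α → α' = α) ∧
      ∀ j a b c, IsEigenvalueOn R γ (E j) a → IsEigenvalueOn R γ (E j) b →
        IsEigenvalueOn R γ (E j) c → b / a = β / α → c / b = β / α → False

/-- The same in the presence of a pairing on `E i` with multiplier `χ`: the set `S` is stable under the
duality `α ↦ χ γ / α`, the quotient `β / α` occurs for `(α, β)` and its dual
`(χ γ / β, χ γ / α)` only, and a geometric progression `a`, `b`, `c` of eigenvalues on `E j` with this
quotient is self-dual, with simple `a`, and `E j` is not isotropic. -/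
def HasIsolatedPairs (R : Representation K Γ X) (χ : Γ →* K) (ω : X →ₗ[K] X →ₗ[K] K) {I : Type}
    (E : I → Submodule K X) (γ : Γ) (i : I) : Prop :=
  ∃ S : Set K, (∃ α ∈ S, IsEigenvalueOn R γ (E i) α) ∧ (∃ β ∉ S, IsEigenvalueOn R γ (E i) β) ∧
    (∀ α, IsEigenvalueOn R γ (E i) α → (α ∈ S ↔ χ γ / α ∈ S)) ∧
    ∀ α ∈ S, ∀ β ∉ S, IsEigenvalueOn R γ (E i) α → IsEigenvalueOn R γ (E i) β →
      (IsSimpleOn R γ (E i) α ∨ IsSimpleOn R γ (E i) β) ∧
      (∀ α' β', IsEigenvalueOn R γ (E i) α' → IsEigenvalueOn R γ (E i) β' →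
        β' / α' = β / α → α' = α ∨ α' * β = χ γ) ∧
      ∀ j a b c, IsEigenvalueOn R γ (E j) a → IsEigenvalueOn R γ (E j) b →
        IsEigenvalueOn R γ (E j) c → b / a = β / α → c / b = β / α →
        NotIsotropic ω (E j) ∧ IsSimpleOn R γ (E j) a ∧ a * c = χ γ

/-- A diagonalizable element of the group has two eigenvalues on `U` whose quotient is not a root of
unity. -/
def HasFrobenius (R : Representation K Γ X) (U : Submodule K X) : Prop :=
  ∃ F : Γ, (∃ b : Basis (Fin (finrank K X)) K X, ∀ k, ∃ a : K, R F (b k) = a • b k) ∧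
    ∃ α β, IsEigenvalueOn R F U α ∧ IsEigenvalueOn R F U β ∧ ∀ k : ℕ, 0 < k → α ^ k ≠ β ^ k

/-- Each `E i` is a line which is not self-dual, or there is a Frobenius element with two eigenvalues
on it whose quotient is not a root of unity, and an element `γ` of finite order on the whole
space, which preserves all `E j`, with isolated ratios or, if `E i` is not isotropic,
with isolated pairs of ratios of eigenvalues on `E i`. -/
def HasIsolatedInertia (R : Representation K Γ X) (χ : Γ →* K) (ω : X →ₗ[K] X →ₗ[K] K) {I : Type}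
    (E : I → Submodule K X) : Prop :=
  ∀ i, (finrank K (E i) = 1 ∧ ¬AreDual R χ (E i) (E i)) ∨
    (HasFrobenius R (E i) ∧ ∃ γ : Γ, (∃ k : ℕ, 0 < k ∧ R γ ^ k = 1) ∧
      (∀ j, ∀ u ∈ E j, R γ u ∈ E j) ∧
      (HasIsolatedRatios R E γ i ∨ (NotIsotropic ω (E i) ∧ HasIsolatedPairs R χ ω E γ i)))

end

section conv

open Pool.Agent.TH118.IS

variable {K X Γ : Type} [Field K] [AddCommGroup X] [Module K X] [Group Γ]

theorem ev_iff {R : Representation K Γ X} {γ : Γ} {U : Submodule K X} {α : K} :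
    IsEigenvalueOn R γ U α ↔ eig R γ U α ≠ ⊥ := by
  constructor
  · rintro ⟨u, hu, hu0, h⟩ h1
    have h2 : u ∈ eig R γ U α := ⟨hu, Module.End.mem_eigenspace_iff.2 h⟩
    rw [h1, Submodule.mem_bot] at h2
    exact hu0 h2
  · intro h
    obtain ⟨u, hu, hu0⟩ := Submodule.exists_mem_ne_zero_of_ne_bot h
    exact ⟨u, hu.1, hu0, Module.End.mem_eigenspace_iff.1 hu.2⟩

end conv

open Pool.Agent.H204R3.SP Pool.Agent.H204R3.GP Pool.Agent.W522.U Pool.Agent.TH118.IS
open Pool.Agent.TH118.CR

theorem result (ℓ : ℕ) [Fact ℓ.Prime] {V Γ : Type} [AddCommGroup V] [Module ℚ_[ℓ] V]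
    [FiniteDimensional ℚ_[ℓ] V] [Group Γ] (ρ : Representation ℚ_[ℓ] Γ V) (χ : Γ →* ℚ_[ℓ])
    (ω : V →ₗ[ℚ_[ℓ]] V →ₗ[ℚ_[ℓ]] ℚ_[ℓ]) (halt : ∀ v, ω v v = 0)
    (hnondeg : ∀ u, (∀ v, ω v u = 0) → u = 0)
    (hω : ∀ s u v, ω (ρ s u) (ρ s v) = χ s * ω u v)
    (hsemisimple : PotentiallySemisimple ρ) {I : Type}
    (E : I → Submodule (AlgebraicClosure ℚ_[ℓ]) (AlgebraicClosure ℚ_[ℓ] ⊗[ℚ_[ℓ]] V))
    (hE : ∀ i, StronglyIrreducible (extend (AlgebraicClosure ℚ_[ℓ]) ρ) (E i)) (hsum : ⨆ i, E i = ⊤)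
    (hinertia : HasIsolatedInertia (extend (AlgebraicClosure ℚ_[ℓ]) ρ)
      (extendChar (AlgebraicClosure ℚ_[ℓ]) χ)
      (LinearMap.BilinForm.baseChange (AlgebraicClosure ℚ_[ℓ]) ω) E)
    (htwists : NoProperTwists (extend (AlgebraicClosure ℚ_[ℓ]) ρ)
      (extendChar (AlgebraicClosure ℚ_[ℓ]) χ)) :
    GeneratedByWeilClasses (AlgebraicClosure ℚ_[ℓ]) ρ χ ω ∧
    (NoWeilFamilies (extend (AlgebraicClosure ℚ_[ℓ]) ρ) (extendChar (AlgebraicClosure ℚ_[ℓ]) χ) →
      GeneratedInDegreeTwo ρ χ) := by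
  have hl1 : ∀ u, (∀ v, bcb (AlgebraicClosure ℚ_[ℓ]) ω u v = 0) → u = 0 := fun u hu =>
    bcb_nondeg_left ω hnondeg (left_nondeg ω halt hnondeg) u hu
  have hinv := bcb_inv (Ω := AlgebraicClosure ℚ_[ℓ]) ρ χ ω hω
  have hpr : HasProj (bcr ρ (AlgebraicClosure ℚ_[ℓ])) := hasProj_bcr ρ _ hsemisimple
  refine pack (AlgebraicClosure ℚ_[ℓ]) ρ χ ω halt hnondeg hω fun m φ hφ =>
    Pool.Agent.Y131.FI.fin_det (E := E) (bcb _ ω) (Pool.Agent.TH118.CU.bcb_alt ω halt) hl1 hinv hpr
      ⟨hE, hsum⟩ (fun i => ?_) htwists φ hφ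
  rcases hinertia i with h | ⟨⟨F, ⟨b, hb⟩, al, be, ⟨u, hu, hu0, hal⟩, ⟨v, hv, hv0, hbe⟩, hab⟩, γ, hk,
    hst, h⟩
  · exact Or.inl h
  refine Or.inr ⟨fun _ => ⟨F, b, hb, u, hu, v, hv, hu0, hv0, al, be, hal, hbe, hab⟩, γ, hk, hst, ?_⟩
  rcases h with ⟨S, ⟨α, hα, hα0⟩, ⟨β, hβ, hβ0⟩, h⟩ | ⟨hni, S, ⟨α, hα, hα0⟩, ⟨β, hβ, hβ0⟩, hdual, h⟩
  · refine Or.inl ⟨S, ⟨α, hα, ev_iff.1 hα0⟩, ⟨β, hβ, ev_iff.1 hβ0⟩,
      fun α hα β hβ hα0 hβ0 => ?_⟩
    obtain ⟨h1, h2, h3⟩ := h α hα β hβ (ev_iff.2 hα0) (ev_iff.2 hβ0)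
    have hne : ∀ j a, eig (bcr ρ (AlgebraicClosure ℚ_[ℓ])) γ (E j) a ≠ ⊥ → a ≠ 0 :=
      fun j a h => eig_ne h
    refine ⟨h1, fun α' h4 h5 => ?_, fun j α' h4 h5 => ?_⟩
    · refine h2 α' _ (ev_iff.2 h4) (ev_iff.2 h5) ?_
      have h6 := hne i _ h4
      field_simp
    · by_contra h6
      have h7 := hne j _ h4
      have h8 := hne j _ h5
      refine h3 j α' _ _ (ev_iff.2 h4) (ev_iff.2 h5) (ev_iff.2 h6) ?_ ?_
      · field_simp
      · rw [mul_div_cancel_left₀ _ h8, div_eq_mul_inv]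
  · refine Or.inr ⟨hni, S, ⟨α, hα, ev_iff.1 hα0⟩, ⟨β, hβ, ev_iff.1 hβ0⟩, fun a ha => ?_,
      fun α hα β hβ hα0 hβ0 => ?_⟩
    · have h6 := hdual a (ev_iff.2 ha)
      rwa [div_eq_mul_inv] at h6
    obtain ⟨h1, h2, h3⟩ := h α hα β hβ (ev_iff.2 hα0) (ev_iff.2 hβ0)
    have hne : ∀ j a, eig (bcr ρ (AlgebraicClosure ℚ_[ℓ])) γ (E j) a ≠ ⊥ → a ≠ 0 :=
      fun j a h => eig_ne h
    refine ⟨h1, fun α' h4 h5 => ?_, fun j α' h4 h5 h6 => ?_⟩
    · refine h2 α' _ (ev_iff.2 h4) (ev_iff.2 h5) ?_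
      have h6 := hne i _ h4
      field_simp
    · have h7 := hne j _ h4
      have h8 := hne j _ h5
      obtain ⟨h9, h10, h11⟩ := h3 j α' _ _ (ev_iff.2 h4) (ev_iff.2 h5) (ev_iff.2 h6)
        (by field_simp) (by rw [mul_div_cancel_left₀ _ h8, div_eq_mul_inv])
      exact ⟨h9, h10, h11⟩

end Pool.Agent.Results.MP_90d181_ag.FiniteInertia
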