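import Pool.Agent.Y2.Hyper

/-!
# Tate classes of codimension at most three on products of the Jacobians of `y ^ 2 = x ^ m + 1`

Let `m` be odd and `J m` the Jacobian of the curve `y ^ 2 = x ^ m + 1`. The first cohomology of
`J m` splits into lines indexed by the nonzero residues `a` modulo `m`, of type `(1, 0)` if the
representative of `a` in `(0, m)` is less than `m / 2`, and of type `(0, 1)` otherwise; the line of
`a` in `J (m')`, for a divisor `m'` of `m`, is that of `(m / m') * a`. So the Hodge classes of
codimension `k` on the products of powers of the `J (m')`, `m'` a divisor of `m`, are spanned by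
lines indexed by multisets `s` of `2 * k` nonzero residues such that for all units `t` exactly half
of the `t * a`, `a` in `s`, lie in `(0, m / 2)`. These abelian varieties have complex multiplication,
so that the Tate classes are the same (Pohlmann).

The line of `a` is the one of the character `{2 * a, m, - 2 * a - m}` of the Fermat curve of degree
`2 * m`, and the line of `s` is, by the inductive structure of Fermat varieties (Shioda, Katsura),
the one of the union of these characters. The theorem says that for at most six entries, that is
in codimension at most three, this union belongs to the family generated by the Hodge characters of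
the Fermat surfaces (algebraic by Lefschetz) and by the standard characters (algebraic by Aoki and
Shioda).
-/

namespace Pool.Agent.Results.MP_90d181_ag.HyperellipticFermat

open Pool.Agent.H916R2

/-- A multiset `s` of nonzero residues modulo `m` such that for every unit `t` exactly half of the
multiples `t * a`, `a` in `s`, have their representative in `(0, m / 2)`. -/
def IsHodgeClass (m : ℕ) (s : Multiset (ZMod m)) : Prop :=
  (0 : ZMod m) ∉ s ∧ ∀ t : (ZMod m)ˣ,
    2 * Multiset.card (s.filter fun a => 2 * ((t : ZMod m) * a).val < m) = Multiset.card s

/-- The character of the Fermat curve of degree `2 * m` which corresponds to the residue `a`. -/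
def curveCharacter (m : ℕ) (a : ZMod m) : Multiset (ZMod (2 * m)) :=
  {((2 * a.val : ℕ) : ZMod (2 * m)), (m : ZMod (2 * m)),
    -((2 * a.val : ℕ) : ZMod (2 * m)) - (m : ZMod (2 * m))}

theorem result (m : ℕ) (hm : Odd m) (s : Multiset (ZMod m)) (hs : IsHodgeClass m s)
    (hcard : Multiset.card s ≤ 6) (hne : s ≠ 0) :
    Generated (2 * m) (SurfaceCharacter (2 * m)) (s.bind (curveCharacter m)) :=
  Pool.Agent.Y2.main_hyper (Nat.odd_iff.mp hm) s hs hcard hne

end Pool.Agent.Results.MP_90d181_ag.HyperellipticFermat
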