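import Mathlib
import Pool.Agent.Y131.Pack

/-!
# Tate classes on all powers of abelian varieties with places of odd or small toric rank

Let `A` be an abelian variety over a number field `k`; `V = V_ℓ(A)` is the rational Tate module with the
action `ρ` of the Galois group `Γ`, `χ` the cyclotomic character and `ω` the Weil pairing of a
polarization; `K` is the algebraic closure of `ℚ_ℓ` and `X = K ⊗ V`. The representation is
semisimple (Faltings). The weak Hodge elements are the operators `x = h - 1 / 2`, where `h` is the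
derivative of a weak Hodge cocharacter (conjugate to the Hodge-Tate cocharacter at a place above `ℓ`);
they have `x ^ 2 = 1 / 4` and kill all Tate classes. By Pink (with Sen, Serre) the weak Hodge
cocharacters generate the connected algebraic monodromy group, so the condition `HodgeGenerates` is
always satisfied for number fields.

A subspace `U` of `X` is strongly irreducible if it is minimal among the nonzero subspaces that are
stable under a subgroup of finite index. If `A` is simple over the algebraic closure, `E` is the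
centre of its endomorphism algebra and `d ^ 2` the dimension of the endomorphism algebra over `E`,
then `X` is the sum of the isotypic subspaces `X_σ`, for `σ : E → K`, and `X_σ` is the sum of `d`
isomorphic strongly irreducible subspaces `U_σ`, which are pairwise not isomorphic; they are
symplectic for the types I and II of Albert, and not self-dual for type IV.

Hypothesis: every strongly irreducible `U` which is not a line has rank one, or, if it is symplectic,
rank two or odd rank, for an element `γ` of the group with `(γ - 1) ^ 2 = 0`: a generator of the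
pro-`ℓ` part of the inertia group of a place where `A` has semistable reduction. For example,
`End(A) = ℤ` and at some place the toric rank is odd, or two.
-/

namespace Pool.Agent.Results.MP_90d181_ag.OddToricRank

open Module TensorProduct Pool.Agent.Y131

section

variable {K X Γ : Type} [Field K] [AddCommGroup X] [Module K X] [Group Γ]

/-- A multilinear form in `2 m` variables on which a subgroup of finite index acts through `χ ^ m`. -/
def IsTateTensor (R : Representation K Γ X) (χ : Γ →* K) (m : ℕ)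
    (φ : MultilinearMap K (fun _ : Fin m × Fin 2 => X) K) : Prop :=
  ∃ Δ : Subgroup Γ, Δ.FiniteIndex ∧ ∀ s ∈ Δ, ∀ v, φ (fun k => R s (v k)) = χ s ^ m * φ v

/-- The operator `x` kills all Tate tensors, and `x ^ 2 = 1 / 4`. -/
def IsWeakHodge (R : Representation K Γ X) (χ : Γ →* K) (x : Module.End K X) : Prop :=
  (∀ (m : ℕ) (φ : MultilinearMap K (fun _ : Fin m × Fin 2 => X) K), IsTateTensor R χ m φ →
    ∀ v : Fin m × Fin 2 → X, ∑ k, φ (Function.update v k (x (v k))) = 0) ∧
  x * x = (1 / 4 : K) • 1

/-- Operators that commute with all weak Hodge elements commute with a subgroup of finite index. -/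
def HodgeGenerates (R : Representation K Γ X) (χ : Γ →* K) : Prop :=
  ∀ P : Module.End K X, (∀ x, IsWeakHodge R χ x → P * x = x * P) →
    ∃ Δ : Subgroup Γ, Δ.FiniteIndex ∧ ∀ g ∈ Δ, P * R g = R g * P

/-- For every strongly irreducible subspace `U` of dimension at least two there is an element `γ`
with `(γ - 1) ^ 2 = 0` such that `γ - 1` has rank one on `U`, or `U` is symplectic and the rank is two
or odd. -/
def HasOddToricPlaces (R : Representation K Γ X) (χ : Γ →* K) : Prop :=
  ∀ U, StronglyIrreducible R U → 2 ≤ finrank K U → ∃ γ : Γ, (R γ - 1) * (R γ - 1) = 0 ∧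
    (finrank K (U.map (R γ - 1)) = 1 ∨ (IsSymplectic R χ U ∧
      (finrank K (U.map (R γ - 1)) = 2 ∨ Odd (finrank K (U.map (R γ - 1))))))

end

open Pool.Agent.H204R3.SP Pool.Agent.H204R3.GP Pool.Agent.W522.U Pool.Agent.TH118.WC

theorem result (ℓ : ℕ) [Fact ℓ.Prime] {V Γ : Type} [AddCommGroup V] [Module ℚ_[ℓ] V]
    [FiniteDimensional ℚ_[ℓ] V] [Group Γ] (ρ : Representation ℚ_[ℓ] Γ V) (χ : Γ →* ℚ_[ℓ])
    (ω : V →ₗ[ℚ_[ℓ]] V →ₗ[ℚ_[ℓ]] ℚ_[ℓ]) (halt : ∀ v, ω v v = 0)
    (hnondeg : ∀ u, (∀ v, ω v u = 0) → u = 0)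
    (hω : ∀ s u v, ω (ρ s u) (ρ s v) = χ s * ω u v)
    (hsemisimple : PotentiallySemisimple ρ)
    (hhodge : HodgeGenerates (extend (AlgebraicClosure ℚ_[ℓ]) ρ)
      (extendChar (AlgebraicClosure ℚ_[ℓ]) χ))
    (htoric : HasOddToricPlaces (extend (AlgebraicClosure ℚ_[ℓ]) ρ)
      (extendChar (AlgebraicClosure ℚ_[ℓ]) χ))
    (hlines : NoSelfDualLines (extend (AlgebraicClosure ℚ_[ℓ]) ρ)
      (extendChar (AlgebraicClosure ℚ_[ℓ]) χ))
    (htwists : NoProperTwists (extend (AlgebraicClosure ℚ_[ℓ]) ρ)
      (extendChar (AlgebraicClosure ℚ_[ℓ]) χ)) :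
    GeneratedByWeilClasses (AlgebraicClosure ℚ_[ℓ]) ρ χ ω ∧
    (NoWeilFamilies (extend (AlgebraicClosure ℚ_[ℓ]) ρ) (extendChar (AlgebraicClosure ℚ_[ℓ]) χ) →
      GeneratedInDegreeTwo ρ χ) := by
  have hl1 : ∀ u, (∀ v, bcb (AlgebraicClosure ℚ_[ℓ]) ω u v = 0) → u = 0 := fun u hu =>
    bcb_nondeg_left ω hnondeg (left_nondeg ω halt hnondeg) u hu
  have hinv := bcb_inv (Ω := AlgebraicClosure ℚ_[ℓ]) ρ χ ω hω
  have hpr : HasProj (bcr ρ (AlgebraicClosure ℚ_[ℓ])) := hasProj_bcr ρ _ hsemisimple
  have hW : Pool.Agent.W528.Odd.WeakHodgeGenerate (bcr ρ (AlgebraicClosure ℚ_[ℓ]))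
      (bcc χ (AlgebraicClosure ℚ_[ℓ])) := fun P hP =>
    hhodge P fun x hx => hP x (fun m φ hφ v => hx.1 m φ hφ v) hx.2
  refine pack (AlgebraicClosure ℚ_[ℓ]) ρ χ ω halt hnondeg hω fun m φ hφ =>
    toric_det (bcb _ ω) hl1 hinv ?_ hlines htwists hpr φ hφ
  intro U hU h2
  obtain ⟨γ, hγ, h | ⟨hs, h | h⟩⟩ := htoric U hU h2
  · exact ⟨γ, hγ, Or.inl h⟩
  · exact ⟨γ, hγ, Or.inr ⟨hs, Or.inl h⟩⟩
  · exact ⟨γ, hγ, Or.inr ⟨hs, Or.inr ⟨h, hW⟩⟩⟩

end Pool.Agent.Results.MP_90d181_ag.OddToricRank
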